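import Pool.Agent.EWG.StmtsC
import Pool.Agent.Common_PNT.PNT

set_option autoImplicit false

/-!
# EWG, row TOT: the total, from the prime number theorem
-/

namespace Pool.Agent.EWG.H44

open Finset Filter Topology Pool.Agent.EWG

theorem tot_nonneg (x : ℕ) : 0 ≤ ∑ p ∈ pr (Icc 3 x), Real.log p * Real.log ((p : ℝ) - 1) := by
  apply Finset.sum_nonneg
  intro p hp
  rw [mem_pr, Finset.mem_Icc] at hp
  have h3 : (3 : ℝ) ≤ p := by exact_mod_cast hp.1.1
  exact mul_nonneg (Real.log_nonneg (by linarith)) (Real.log_nonneg (by linarith))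

/-- the sum over the large primes -/
theorem big_sum (x : ℕ) (y : ℝ) (hy : 2 ≤ y) (hyx : y ≤ x) (A : ℝ)
    (hA : ∀ p : ℝ, y < p → A ≤ Real.log (p - 1)) :
    A * (Chebyshev.theta x - Chebyshev.theta y) ≤
      ∑ p ∈ pr (Icc 3 x), Real.log p * Real.log ((p : ℝ) - 1) := by
  have hfl : ⌊y⌋₊ ≤ x := by
    rw [← Nat.floor_natCast (R := ℝ) x]
    exact Nat.floor_le_floor hyx
  have h1 : Chebyshev.theta x = Chebyshev.theta y +
      ∑ p ∈ (Ioc ⌊y⌋₊ x).filter Nat.Prime, Real.log p := by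
    unfold Chebyshev.theta
    rw [Nat.floor_natCast]
    rw [← Finset.sum_union]
    · rw [← Finset.filter_union, Finset.Ioc_union_Ioc_eq_Ioc (Nat.zero_le _) hfl]
    · apply Finset.disjoint_filter_filter
      rw [Finset.disjoint_left]
      intro a ha hb
      rw [Finset.mem_Ioc] at ha hb
      omega
  have h2 : Chebyshev.theta x - Chebyshev.theta y =
      ∑ p ∈ (Ioc ⌊y⌋₊ x).filter Nat.Prime, Real.log p := by
    rw [h1]; ring
  rw [h2, Finset.mul_sum]
  have h3 : (Ioc ⌊y⌋₊ x).filter Nat.Prime ⊆ pr (Icc 3 x) := by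
    intro p hp
    rw [Finset.mem_filter, Finset.mem_Ioc] at hp
    rw [mem_pr, Finset.mem_Icc]
    have h4 : 2 ≤ ⌊y⌋₊ := Nat.le_floor (by exact_mod_cast hy)
    exact ⟨⟨by omega, hp.1.2⟩, hp.2⟩
  refine le_trans (Finset.sum_le_sum ?_) (Finset.sum_le_sum_of_subset_of_nonneg h3 ?_)
  · intro p hp
    rw [Finset.mem_filter, Finset.mem_Ioc] at hp
    have h5 : y < p := (Nat.floor_lt (by linarith)).1 hp.1.1
    rw [mul_comm]
    exact mul_le_mul_of_nonneg_left (hA p h5) (Real.log_nonneg (by linarith))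
  · intro p hp _
    rw [mem_pr, Finset.mem_Icc] at hp
    have h3 : (3 : ℝ) ≤ p := by exact_mod_cast hp.1.1
    exact mul_nonneg (Real.log_nonneg (by linarith)) (Real.log_nonneg (by linarith))

/-- **TOT** -/
theorem tot : TotStmt := by
  intro η hη
  rcases le_or_gt 1 η with h1 | h1
  · refine ⟨1, fun x hx => le_trans ?_ (tot_nonneg x)⟩
    have hx1 : (1 : ℝ) ≤ x := by exact_mod_cast hx
    have h2 : 0 ≤ (x : ℝ) * Real.log x := mul_nonneg (by linarith) (Real.log_nonneg hx1)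
    nlinarith
  -- the prime number theorem
  have e1 : ∀ᶠ x : ℝ in atTop, 1 - η / 8 < Chebyshev.theta x / x :=
    Pool.Agent.Common_PNT.tendsto_theta_div.eventually (lt_mem_nhds (by linarith))
  have e2 : ∀ᶠ x : ℝ in atTop, Real.log 4 * x ^ (-(η / 4)) < η / 8 := by
    have h := (tendsto_rpow_neg_atTop (y := η / 4) (by linarith)).const_mul (Real.log 4)
    rw [mul_zero] at h
    exact h.eventually (gt_mem_nhds (by linarith))
  have e3 : ∀ᶠ x : ℝ in atTop, Real.log 2 / (η / 4) ≤ Real.log x :=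
    Real.tendsto_log_atTop.eventually_ge_atTop _
  have e4 : ∀ᶠ x : ℝ in atTop, 2 ≤ x ^ (1 - η / 4) :=
    (tendsto_rpow_atTop (by linarith)).eventually_ge_atTop _
  have e5 : ∀ᶠ x : ℝ in atTop, (2 : ℝ) ≤ x := eventually_ge_atTop _
  have e6 := (tendsto_natCast_atTop_atTop (R := ℝ)).eventually
    (e1.and (e2.and (e3.and (e4.and e5))))
  obtain ⟨X, hX⟩ := eventually_atTop.1 e6
  refine ⟨X, fun x hx => ?_⟩
  obtain ⟨f1, f2, f3, f4, f5⟩ := hX x hx
  have hx0 : (0 : ℝ) < x := by linarith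
  have hlx : 0 ≤ Real.log x := Real.log_nonneg (by linarith)
  have hl2 : Real.log 2 ≤ η / 4 * Real.log x := by
    rw [div_le_iff₀ (by linarith)] at f3
    linarith
  have hyx : (x : ℝ) ^ (1 - η / 4) ≤ x := by
    calc (x : ℝ) ^ (1 - η / 4) ≤ (x : ℝ) ^ (1 : ℝ) :=
          Real.rpow_le_rpow_of_exponent_le (by linarith) (by linarith)
      _ = x := Real.rpow_one _
  have hth1 : (1 - η / 8) * x ≤ Chebyshev.theta x := by
    rw [lt_div_iff₀ hx0] at f1
    exact f1.le
  have hth2 : Chebyshev.theta ((x : ℝ) ^ (1 - η / 4)) ≤ η / 8 * x := by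
    have g1 := Chebyshev.theta_le_log4_mul_x (x := (x : ℝ) ^ (1 - η / 4)) (by linarith)
    have g2 : (x : ℝ) ^ (1 - η / 4) = x * (x : ℝ) ^ (-(η / 4)) := by
      rw [show (1 : ℝ) - η / 4 = 1 + -(η / 4) by ring, Real.rpow_add hx0, Real.rpow_one]
    calc Chebyshev.theta ((x : ℝ) ^ (1 - η / 4)) ≤ Real.log 4 * (x : ℝ) ^ (1 - η / 4) := g1
      _ = Real.log 4 * (x : ℝ) ^ (-(η / 4)) * x := by rw [g2]; ring
      _ ≤ η / 8 * x := mul_le_mul_of_nonneg_right f2.le hx0.le
  have hA : ∀ p : ℝ, (x : ℝ) ^ (1 - η / 4) < p →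
      (1 - η / 4) * Real.log x - Real.log 2 ≤ Real.log (p - 1) := by
    intro p hp
    have hp2 : 2 < p := lt_of_le_of_lt f4 hp
    have g1 : Real.log ((x : ℝ) ^ (1 - η / 4)) ≤ Real.log p :=
      Real.log_le_log (by linarith) hp.le
    rw [Real.log_rpow hx0] at g1
    have g2 : Real.log (p / 2) ≤ Real.log (p - 1) :=
      Real.log_le_log (by linarith) (by linarith)
    rw [Real.log_div (by linarith) (by norm_num)] at g2
    linarith
  have key := big_sum x _ f4 hyx _ hA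
  refine le_trans ?_ key
  have hA2 : (1 - η / 2) * Real.log x ≤ (1 - η / 4) * Real.log x - Real.log 2 := by linarith
  have hA3 : 0 ≤ (1 - η / 2) * Real.log x := mul_nonneg (by linarith) hlx
  have hB : (1 - η / 4) * x ≤ Chebyshev.theta x - Chebyshev.theta ((x : ℝ) ^ (1 - η / 4)) := by
    linarith
  have hB0 : 0 ≤ (1 - η / 4) * (x : ℝ) := mul_nonneg (by linarith) hx0.le
  calc (1 - η) * x * Real.log x ≤ ((1 - η / 2) * Real.log x) * ((1 - η / 4) * x) := by
        have g3 : 0 ≤ (x : ℝ) * Real.log x := mul_nonneg hx0.le hlx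
        nlinarith [mul_nonneg hη.le g3, mul_nonneg (mul_nonneg hη.le hη.le) g3]
    _ ≤ _ := mul_le_mul hA2 hB hB0 (le_trans hA3 hA2)

end Pool.Agent.EWG.H44
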